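import Pool.Agent.Lib.MP_eee7a8_ag.TB.IfaceB

/-!
TAGBR Part B, module CONST. It is the special case `f = sideF h` of NOCR.
-/

namespace Pool.Agent.Lib.MP_eee7a8_ag.TB.PB.H37

theorem const (hn : NOCR_S) : CONST_S := by
  intro h f ht hd hr
  have h1 : 0 < (sideF h).disc := by
    rw [disc_sideF]
    nlinarith
  rcases hn (sideF h) f h1 hd hr with h2 | h2 | h2 | h2
  · exact Or.inr (Or.inl fun u hu => h2 u (by rwa [ev_sideF]))
  · exact Or.inr (Or.inr (Or.inl fun u hu => h2 u (by rwa [ev_sideF])))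
  · exact Or.inl fun u hu => h2 u (by rwa [ev_sideF])
  · exact Or.inr (Or.inr (Or.inr fun u hu => h2 u (by rwa [ev_sideF])))

end Pool.Agent.Lib.MP_eee7a8_ag.TB.PB.H37
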