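import Pool.Agent.Lib.MP_eee7a8_ag.TB.IfaceB

/-!
TAGBR Part B, module FP: the exact four point relation.
-/

namespace Pool.Agent.Lib.MP_eee7a8_ag.TB.PB.H37

/-- counting: equal unions and equal intersections -/
theorem ncard_four {α : Type*} {A B C D : Set α} (hA : A.Finite) (hB : B.Finite) (hC : C.Finite)
    (hD : D.Finite) (h1 : ∀ f, (f ∈ A ∨ f ∈ B) ↔ (f ∈ C ∨ f ∈ D))
    (h2 : ∀ f, (f ∈ A ∧ f ∈ B) ↔ (f ∈ C ∧ f ∈ D)) :
    A.ncard + B.ncard = C.ncard + D.ncard := by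
  have e1 : A ∪ B = C ∪ D := Set.ext h1
  have e2 : A ∩ B = C ∩ D := Set.ext h2
  rw [← Set.ncard_union_add_ncard_inter A B hA hB, ← Set.ncard_union_add_ncard_inter C D hC hD,
    e1, e2]

/-- the sum over the strands of a pointwise four point relation -/
theorem XX_four {G : Subgroup SLZ} {S : Set QF} (hfin : FIN_S) (hS : SFam G S)
    (r : Cusp → Cusp → Prop) (u u' v v' : Cusp)
    (H : ∀ f ∈ S, ∃ A B : Cusp → Prop,
      (∀ x y, (x = u ∨ x = u') → (y = v ∨ y = v') → (f.Meets r x y ↔ A x ∧ B y)) ∧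
      ((A u ↔ A u') ∨ (B v ↔ B v'))) :
    XX S r u v' + XX S r u' v = XX S r u v + XX S r u' v' := by
  have fin : ∀ x y, {f | f ∈ S ∧ f.Meets r x y}.Finite := by
    intro x y
    refine (hfin G S hS x y).subset ?_
    rintro f ⟨h1, h2⟩
    exact ⟨h1, h2.1⟩
  have key : ∀ f, f ∈ S → ((f.Meets r u v' ∨ f.Meets r u' v ↔ f.Meets r u v ∨ f.Meets r u' v') ∧
      (f.Meets r u v' ∧ f.Meets r u' v ↔ f.Meets r u v ∧ f.Meets r u' v')) := by
    intro f hf
    obtain ⟨A, B, h1, h2⟩ := H f hf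
    rw [h1 u v' (Or.inl rfl) (Or.inr rfl), h1 u' v (Or.inr rfl) (Or.inl rfl),
      h1 u v (Or.inl rfl) (Or.inl rfl), h1 u' v' (Or.inr rfl) (Or.inr rfl)]
    rcases h2 with h2 | h2
    · rw [h2]; tauto
    · rw [h2]; tauto
  unfold XX
  have := ncard_four (fin u v') (fin u' v) (fin u v) (fin u' v')
    (by
      intro f
      simp only [Set.mem_setOf_eq]
      constructor
      · rintro (⟨h1, h2⟩ | ⟨h1, h2⟩)
        · rcases ((key f h1).1.1 (Or.inl h2)) with h | h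
          · exact Or.inl ⟨h1, h⟩
          · exact Or.inr ⟨h1, h⟩
        · rcases ((key f h1).1.1 (Or.inr h2)) with h | h
          · exact Or.inl ⟨h1, h⟩
          · exact Or.inr ⟨h1, h⟩
      · rintro (⟨h1, h2⟩ | ⟨h1, h2⟩)
        · rcases ((key f h1).1.2 (Or.inl h2)) with h | h
          · exact Or.inl ⟨h1, h⟩
          · exact Or.inr ⟨h1, h⟩
        · rcases ((key f h1).1.2 (Or.inr h2)) with h | h
          · exact Or.inl ⟨h1, h⟩
          · exact Or.inr ⟨h1, h⟩)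
    (by
      intro f
      simp only [Set.mem_setOf_eq]
      constructor
      · rintro ⟨⟨h1, h2⟩, -, h3⟩
        have := (key f h1).2.1 ⟨h2, h3⟩
        exact ⟨⟨h1, this.1⟩, h1, this.2⟩
      · rintro ⟨⟨h1, h2⟩, -, h3⟩
        have := (key f h1).2.2 ⟨h2, h3⟩
        exact ⟨⟨h1, this.1⟩, h1, this.2⟩)
  exact_mod_cast this

/-- a strand which does not cross the axis of `h` -/
theorem noncross_AB (hc : CONST_S) {r : Cusp → Cusp → Prop} {h : SLZ} {f : QF}
    (ht : 2 < h.1.trace) (hd : 0 < f.disc) (hr : 0 ≤ (sideF h).res f)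
    (hrel : ∀ z x, r z x → 0 < side h z * side h x) {u u' v v' : Cusp}
    (hu : side h u < 0) (hu' : side h u' < 0) (hv : 0 < side h v) (hv' : 0 < side h v') :
    ∃ A B : Cusp → Prop,
      (∀ x y, (x = u ∨ x = u') → (y = v ∨ y = v') → (f.Meets r x y ↔ A x ∧ B y)) ∧
      ((A u ↔ A u') ∨ (B v ↔ B v')) := by
  have hN : ∀ x, (x = u ∨ x = u') → side h x < 0 := by
    rintro x (rfl | rfl) <;> assumption
  have hP : ∀ y, (y = v ∨ y = v') → 0 < side h y := by
    rintro y (rfl | rfl) <;> assumption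
  -- zeros are not on the side of constant sign
  have zN : (∀ z, f.ev z = 0 → ¬ side h z < 0) → ∀ x, side h x < 0 → ∀ z, f.ev z = 0 → ¬ r z x := by
    intro h1 x hx z hz hzx
    have := hrel z x hzx
    apply h1 z hz
    by_contra h2
    push Not at h2
    have := mul_nonpos_of_nonneg_of_nonpos h2 hx.le
    omega
  have zP : (∀ z, f.ev z = 0 → ¬ 0 < side h z) → ∀ x, 0 < side h x → ∀ z, f.ev z = 0 → ¬ r z x := by
    intro h1 x hx z hz hzx
    have := hrel z x hzx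
    apply h1 z hz
    by_contra h2
    push Not at h2
    have := mul_nonpos_of_nonpos_of_nonneg h2 hx.le
    omega
  have symm : ∀ (P Q R : Prop), (P ∧ Q) ∧ R ↔ (P ∧ Q) ∧ R := fun _ _ _ => Iff.rfl
  rcases hc h f ht hd hr with h1 | h1 | h1 | h1
  · refine ⟨fun _ => True, fun y => f.ev y < 0 ∧ ∀ z, f.ev z = 0 → ¬ r z y, ?_, Or.inl Iff.rfl⟩
    intro x y hx hy
    have hx' := h1 x (hN x hx)
    have hz := zN (fun z hz hs => by have := h1 z hs; omega) x (hN x hx)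
    constructor
    · rintro ⟨h2, h3⟩
      exact ⟨trivial, neg_of_mul_neg_right h2 hx'.le, fun z hz => (h3 z hz).2⟩
    · rintro ⟨-, h2, h3⟩
      exact ⟨mul_neg_of_pos_of_neg hx' h2, fun z hz' => ⟨hz z hz', h3 z hz'⟩⟩
  · refine ⟨fun _ => True, fun y => 0 < f.ev y ∧ ∀ z, f.ev z = 0 → ¬ r z y, ?_, Or.inl Iff.rfl⟩
    intro x y hx hy
    have hx' := h1 x (hN x hx)
    have hz := zN (fun z hz hs => by have := h1 z hs; omega) x (hN x hx)
    constructor
    · rintro ⟨h2, h3⟩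
      exact ⟨trivial, pos_of_mul_neg_right h2 hx'.le, fun z hz => (h3 z hz).2⟩
    · rintro ⟨-, h2, h3⟩
      exact ⟨mul_neg_of_neg_of_pos hx' h2, fun z hz' => ⟨hz z hz', h3 z hz'⟩⟩
  · refine ⟨fun x => f.ev x < 0 ∧ ∀ z, f.ev z = 0 → ¬ r z x, fun _ => True, ?_, Or.inr Iff.rfl⟩
    intro x y hx hy
    have hy' := h1 y (hP y hy)
    have hz := zP (fun z hz hs => by have := h1 z hs; omega) y (hP y hy)
    constructor
    · rintro ⟨h2, h3⟩
      exact ⟨⟨neg_of_mul_neg_left h2 hy'.le, fun z hz => (h3 z hz).1⟩, trivial⟩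
    · rintro ⟨⟨h2, h3⟩, -⟩
      exact ⟨mul_neg_of_neg_of_pos h2 hy', fun z hz' => ⟨h3 z hz', hz z hz'⟩⟩
  · refine ⟨fun x => 0 < f.ev x ∧ ∀ z, f.ev z = 0 → ¬ r z x, fun _ => True, ?_, Or.inr Iff.rfl⟩
    intro x y hx hy
    have hy' := h1 y (hP y hy)
    have hz := zP (fun z hz hs => by have := h1 z hs; omega) y (hP y hy)
    constructor
    · rintro ⟨h2, h3⟩
      exact ⟨⟨pos_of_mul_neg_left h2 hy'.le, fun z hz => (h3 z hz).1⟩, trivial⟩
    · rintro ⟨⟨h2, h3⟩, -⟩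
      exact ⟨mul_neg_of_pos_of_neg h2 hy', fun z hz' => ⟨h3 z hz', hz z hz'⟩⟩

theorem fp (hc : CONST_S) (hfin : FIN_S) : FP_S := by
  intro G S r h hS ht hres hrel u u' v v' hu hu' hv hv'
  exact XX_four hfin hS r u u' v v' fun f hf =>
    noncross_AB hc ht (hS.pos f hf) (hres f hf) hrel hu hu' hv hv'

end Pool.Agent.Lib.MP_eee7a8_ag.TB.PB.H37
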