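import Pool.Agent.Lib.MP_eee7a8_ag.TB.H37.Fp

/-!
TAGBR Part B, module FPFAR: the four point relation for pairs with a large displacement.
-/

namespace Pool.Agent.Lib.MP_eee7a8_ag.TB.PB.H37

/-- a strand which crosses the axis of `h`, large positive displacement -/
theorem cross_pos {r : Cusp → Cusp → Prop} {h : SLZ} {f : QF} {M : ℝ} (hrel : RelOK h r)
    {σ : ℤ} {p q : ℝ} (hcut : Cut h f σ p q) (hM : |q - p| ≤ M) {u u' v v' : Cusp}
    (hu : side h u < 0) (hu' : side h u' < 0) (hv : 0 < side h v) (hv' : 0 < side h v')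
    (h1 : ∀ x y, (x = u ∨ x = u') → (y = v ∨ y = v') → M + 2 < pos h y - pos h x) :
    ∃ A B : Cusp → Prop,
      (∀ x y, (x = u ∨ x = u') → (y = v ∨ y = v') → (f.Meets r x y ↔ A x ∧ B y)) ∧
      ((A u ↔ A u') ∨ (B v ↔ B v')) := by
  have hN : ∀ x, (x = u ∨ x = u') → side h x < 0 := by
    rintro x (rfl | rfl) <;> assumption
  have hP : ∀ y, (y = v ∨ y = v') → 0 < side h y := by
    rintro y (rfl | rfl) <;> assumption
  obtain ⟨hσ, hcN, hcP⟩ := hcut
  have hM' := abs_le.1 hM
  have sq : σ * σ = 1 := by rcases hσ with h | h <;> rw [h] <;> norm_num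
  have prod : ∀ x y, f.ev x * f.ev y = (σ * f.ev x) * (σ * f.ev y) := by
    intro x y
    linear_combination (-(f.ev x * f.ev y)) * sq
  -- zeros
  have zN : ∀ z, side h z < 0 → f.ev z = 0 → pos h z = p := by
    intro z hz h0
    have := hcN z hz
    rw [h0, mul_zero] at this
    simp only [lt_irrefl, false_iff, not_lt] at this
    exact le_antisymm this.1 this.2
  have zP : ∀ z, 0 < side h z → f.ev z = 0 → pos h z = q := by
    intro z hz h0
    have := hcP z hz
    rw [h0, mul_zero] at this
    simp only [lt_irrefl, false_iff, not_lt] at this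
    exact le_antisymm this.1 this.2
  have rN : ∀ x, side h x < 0 → ∀ z, r z x → side h z < 0 := by
    intro x hx z hz
    have := hrel.1 z x hz
    by_contra h2
    push Not at h2
    have := mul_nonpos_of_nonneg_of_nonpos h2 hx.le
    omega
  have rP : ∀ x, 0 < side h x → ∀ z, r z x → 0 < side h z := by
    intro x hx z hz
    have := hrel.1 z x hz
    by_contra h2
    push Not at h2
    have := mul_nonpos_of_nonpos_of_nonneg h2 hx.le
    omega
  refine ⟨fun x => pos h x < p ∧ ∀ z, f.ev z = 0 → ¬ r z x,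
    fun y => q < pos h y ∧ ∀ z, f.ev z = 0 → ¬ r z y, ?_, ?_⟩
  · intro x y hx hy
    have d := h1 x y hx hy
    have cx := hcN x (hN x hx)
    have cy := hcP y (hP y hy)
    constructor
    · rintro ⟨h2, h3⟩
      rw [prod] at h2
      rcases mul_neg_iff.1 h2 with ⟨h4, h5⟩ | ⟨h4, h5⟩
      · have h6 := cx.1.1 h4
        have h7 := cy.2.1 h5
        linarith
      · exact ⟨⟨cx.2.1 h4, fun z hz => (h3 z hz).1⟩, cy.1.1 h5, fun z hz => (h3 z hz).2⟩
    · rintro ⟨⟨h2, h3⟩, h4, h5⟩
      refine ⟨?_, fun z hz => ⟨h3 z hz, h5 z hz⟩⟩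
      rw [prod]
      exact mul_neg_of_neg_of_pos (cx.2.2 h2) (cy.1.2 h4)
  · by_cases hc : pos h u + 1 < p ∧ pos h u' + 1 < p
    · left
      have A : ∀ x, side h x < 0 → pos h x + 1 < p → (pos h x < p ∧ ∀ z, f.ev z = 0 → ¬ r z x) := by
        intro x hx hp
        refine ⟨by linarith, fun z hz hzx => ?_⟩
        have h2 := zN z (rN x hx z hzx) hz
        have h3 := abs_le.1 (hrel.2 z x hzx)
        linarith
      exact iff_of_true (A u hu hc.1) (A u' hu' hc.2)
    · right
      have B : ∀ y, (y = v ∨ y = v') → (q < pos h y ∧ ∀ z, f.ev z = 0 → ¬ r z y) := by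
        intro y hy
        have h4 : q < pos h y - 1 := by
          have e1 := h1 u y (Or.inl rfl) hy
          have e2 := h1 u' y (Or.inr rfl) hy
          by_cases h5 : pos h u + 1 < p
          · have h6 : ¬ pos h u' + 1 < p := fun h7 => hc ⟨h5, h7⟩
            push Not at h6
            linarith
          · push Not at h5
            linarith
        refine ⟨by linarith, fun z hz hzx => ?_⟩
        have h2 := zP z (rP y (hP y hy) z hzx) hz
        have h3 := abs_le.1 (hrel.2 z y hzx)
        linarith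
      exact iff_of_true (B v (Or.inl rfl)) (B v' (Or.inr rfl))

/-- a strand which crosses the axis of `h`, large negative displacement -/
theorem cross_neg {r : Cusp → Cusp → Prop} {h : SLZ} {f : QF} {M : ℝ} (hrel : RelOK h r)
    {σ : ℤ} {p q : ℝ} (hcut : Cut h f σ p q) (hM : |q - p| ≤ M) {u u' v v' : Cusp}
    (hu : side h u < 0) (hu' : side h u' < 0) (hv : 0 < side h v) (hv' : 0 < side h v')
    (h1 : ∀ x y, (x = u ∨ x = u') → (y = v ∨ y = v') → pos h y - pos h x < -(M + 2)) :
    ∃ A B : Cusp → Prop,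
      (∀ x y, (x = u ∨ x = u') → (y = v ∨ y = v') → (f.Meets r x y ↔ A x ∧ B y)) ∧
      ((A u ↔ A u') ∨ (B v ↔ B v')) := by
  have hN : ∀ x, (x = u ∨ x = u') → side h x < 0 := by
    rintro x (rfl | rfl) <;> assumption
  have hP : ∀ y, (y = v ∨ y = v') → 0 < side h y := by
    rintro y (rfl | rfl) <;> assumption
  obtain ⟨hσ, hcN, hcP⟩ := hcut
  have hM' := abs_le.1 hM
  have sq : σ * σ = 1 := by rcases hσ with h | h <;> rw [h] <;> norm_num
  have prod : ∀ x y, f.ev x * f.ev y = (σ * f.ev x) * (σ * f.ev y) := by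
    intro x y
    linear_combination (-(f.ev x * f.ev y)) * sq
  -- zeros
  have zN : ∀ z, side h z < 0 → f.ev z = 0 → pos h z = p := by
    intro z hz h0
    have := hcN z hz
    rw [h0, mul_zero] at this
    simp only [lt_irrefl, false_iff, not_lt] at this
    exact le_antisymm this.1 this.2
  have zP : ∀ z, 0 < side h z → f.ev z = 0 → pos h z = q := by
    intro z hz h0
    have := hcP z hz
    rw [h0, mul_zero] at this
    simp only [lt_irrefl, false_iff, not_lt] at this
    exact le_antisymm this.1 this.2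
  have rN : ∀ x, side h x < 0 → ∀ z, r z x → side h z < 0 := by
    intro x hx z hz
    have := hrel.1 z x hz
    by_contra h2
    push Not at h2
    have := mul_nonpos_of_nonneg_of_nonpos h2 hx.le
    omega
  have rP : ∀ x, 0 < side h x → ∀ z, r z x → 0 < side h z := by
    intro x hx z hz
    have := hrel.1 z x hz
    by_contra h2
    push Not at h2
    have := mul_nonpos_of_nonpos_of_nonneg h2 hx.le
    omega
  refine ⟨fun x => p < pos h x ∧ ∀ z, f.ev z = 0 → ¬ r z x,
    fun y => pos h y < q ∧ ∀ z, f.ev z = 0 → ¬ r z y, ?_, ?_⟩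
  · intro x y hx hy
    have d := h1 x y hx hy
    have cx := hcN x (hN x hx)
    have cy := hcP y (hP y hy)
    constructor
    · rintro ⟨h2, h3⟩
      rw [prod] at h2
      rcases mul_neg_iff.1 h2 with ⟨h4, h5⟩ | ⟨h4, h5⟩
      · exact ⟨⟨cx.1.1 h4, fun z hz => (h3 z hz).1⟩, cy.2.1 h5, fun z hz => (h3 z hz).2⟩
      · have h6 := cx.2.1 h4
        have h7 := cy.1.1 h5
        linarith
    · rintro ⟨⟨h2, h3⟩, h4, h5⟩
      refine ⟨?_, fun z hz => ⟨h3 z hz, h5 z hz⟩⟩
      rw [prod]
      exact mul_neg_of_pos_of_neg (cx.1.2 h2) (cy.2.2 h4)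
  · by_cases hc : p < pos h u - 1 ∧ p < pos h u' - 1
    · left
      have A : ∀ x, side h x < 0 → p < pos h x - 1 → (p < pos h x ∧ ∀ z, f.ev z = 0 → ¬ r z x) := by
        intro x hx hp
        refine ⟨by linarith, fun z hz hzx => ?_⟩
        have h2 := zN z (rN x hx z hzx) hz
        have h3 := abs_le.1 (hrel.2 z x hzx)
        linarith
      exact iff_of_true (A u hu hc.1) (A u' hu' hc.2)
    · right
      have B : ∀ y, (y = v ∨ y = v') → (pos h y < q ∧ ∀ z, f.ev z = 0 → ¬ r z y) := by
        intro y hy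
        have h4 : pos h y + 1 < q := by
          have e1 := h1 u y (Or.inl rfl) hy
          have e2 := h1 u' y (Or.inr rfl) hy
          by_cases h5 : p < pos h u - 1
          · have h6 : ¬ p < pos h u' - 1 := fun h7 => hc ⟨h5, h7⟩
            push Not at h6
            linarith
          · push Not at h5
            linarith
        refine ⟨by linarith, fun z hz hzx => ?_⟩
        have h2 := zP z (rP y (hP y hy) z hzx) hz
        have h3 := abs_le.1 (hrel.2 z y hzx)
        linarith
      exact iff_of_true (B v (Or.inl rfl)) (B v' (Or.inr rfl))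

theorem fpfar (hc : CONST_S) (hfin : FIN_S) : FPFAR_S := by
  intro G S r h M hS ht hb hrel u u' v v' hu hu' hv hv' hdis
  refine XX_four hfin hS r u u' v v' fun f hf => ?_
  by_cases hres : 0 ≤ (sideF h).res f
  · exact noncross_AB hc ht (hS.pos f hf) hres hrel.1 hu hu' hv hv'
  · push Not at hres
    obtain ⟨σ, p, q, hcut, hM⟩ := hb f hf hres
    rcases hdis with ⟨d1, d2, d3, d4⟩ | ⟨d1, d2, d3, d4⟩
    · refine cross_pos hrel hcut hM hu hu' hv hv' ?_
      rintro x y (rfl | rfl) (rfl | rfl) <;> assumption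
    · refine cross_neg hrel hcut hM hu hu' hv hv' ?_
      rintro x y (rfl | rfl) (rfl | rfl) <;> assumption

end Pool.Agent.Lib.MP_eee7a8_ag.TB.PB.H37
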