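import Pool.Agent.Lib.MP_eee7a8_ag.TB.IfaceB

/-!
TAGBR Part B, module X2C.
-/

namespace Pool.Agent.Lib.MP_eee7a8_ag.TB.PB.H37

theorem side_zpow (h : SLZ) (k : ℤ) (v : Cusp) : side h (h ^ k • v) = side h v := by
  have h1 := side_conj (h ^ k) h v
  have h2 : h ^ k * h * (h ^ k)⁻¹ = h := by
    rw [(Commute.zpow_self h k).eq]
    group
  rwa [h2] at h1

theorem x2c (hfp : FP_S) (hx : XINV_S) : X2C_S := by
  intro G S r h hS hinv hG ht hres hrel u v m hu hv
  have hx' := (hx G S r hS hinv).2
  have step : ∀ k : ℤ, XX S r u (h ^ (k + 1) • v) - XX S r u (h ^ k • v) =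
      XX S r u (h • v) - XX S r u v := by
    intro k
    have e1 : XX S r u (h ^ (k + 1) • v) = XX S r (h ^ (-k) • u) (h • v) := by
      rw [← hx' (h ^ (-k)) (G.zpow_mem hG _) u (h ^ (k + 1) • v), smul_smul (h ^ (-k)),
        ← zpow_add]
      congr 2
      rw [show -k + (k + 1) = 1 by ring, zpow_one]
    have e2 : XX S r u (h ^ k • v) = XX S r (h ^ (-k) • u) v := by
      rw [← hx' (h ^ (-k)) (G.zpow_mem hG _) u (h ^ k • v), smul_smul (h ^ (-k)), ← zpow_add]
      congr 1
      rw [show -k + k = 0 by ring, zpow_zero, one_smul]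
    have e3 := hfp G S r h hS ht hres hrel u (h ^ (-k) • u) v (h • v) hu
      (by rw [side_zpow]; exact hu) hv (by rw [side_smul_self]; exact hv)
    rw [e1, e2]
    linarith
  have lin : ∀ k : ℤ, XX S r u (h ^ k • v) =
      XX S r u v + k * (XX S r u (h • v) - XX S r u v) := by
    intro k
    induction k using Int.induction_on with
    | zero => simp
    | succ i ih =>
      have := step i
      linarith
    | pred i ih =>
      have := step (-i - 1)
      rw [show (-(i : ℤ) - 1 + 1) = -i by ring] at this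
      linarith
  have nn : ∀ x y, 0 ≤ XX S r x y := fun x y => Int.natCast_nonneg _
  have hz : XX S r u (h • v) - XX S r u v = 0 := by
    set δ := XX S r u (h • v) - XX S r u v with hδ
    set c := XX S r u v with hc
    have h1 := nn u (h ^ (c + 1) • v)
    have h2 := nn u (h ^ (-(c + 1)) • v)
    rw [lin] at h1 h2
    have hc0 : 0 ≤ c := nn u v
    by_contra hne
    rcases lt_or_gt_of_ne hne with h3 | h3
    · nlinarith
    · nlinarith
  rw [lin m, hz]
  ring

end Pool.Agent.Lib.MP_eee7a8_ag.TB.PB.H37
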