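import Pool.Agent.Lib.MP_eee7a8_ag.TB.IfaceB

/-!
TAGBR Part B, module SHEARB: existence and uniqueness of the shear vector.
-/

namespace Pool.Agent.Lib.MP_eee7a8_ag.TB.PB.H37

/-- a function on the integers with given differences -/
theorem exists_prim {M : Type*} [AddCommGroup M] (g : ℤ → M) :
    ∃ F : ℤ → M, ∀ i, F (i + 1) = F i + g i := by
  refine ⟨fun i => ∑ k ∈ Finset.Ico 0 i, g k - ∑ k ∈ Finset.Ico i 0, g k, fun i => ?_⟩
  rcases le_or_gt 0 i with h | h
  · have e1 : Finset.Ico 0 (i + 1) = insert i (Finset.Ico 0 i) := by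
      ext k; simp only [Finset.mem_Ico, Finset.mem_insert]; omega
    have e2 : Finset.Ico (i + 1) 0 = ∅ := by
      ext k; simp only [Finset.mem_Ico, Finset.notMem_empty, iff_false]; omega
    have e3 : Finset.Ico i 0 = ∅ := by
      ext k; simp only [Finset.mem_Ico, Finset.notMem_empty, iff_false]; omega
    simp only [e1, e2, e3, Finset.sum_empty, sub_zero]
    rw [Finset.sum_insert (by simp), add_comm]
  · have e1 : Finset.Ico i 0 = insert i (Finset.Ico (i + 1) 0) := by
      ext k; simp only [Finset.mem_Ico, Finset.mem_insert]; omega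
    have e2 : Finset.Ico 0 (i + 1) = ∅ := by
      ext k; simp only [Finset.mem_Ico, Finset.notMem_empty, iff_false]; omega
    have e3 : Finset.Ico 0 i = ∅ := by
      ext k; simp only [Finset.mem_Ico, Finset.notMem_empty, iff_false]; omega
    simp only [e1, e2, e3, Finset.sum_empty, zero_sub]
    rw [Finset.sum_insert (by simp)]
    abel

/-- a function which is constant along every step is constant -/
theorem const_of_step {M : Type*} (f : ℤ → M) (h : ∀ i, f (i + 1) = f i) (i j : ℤ) :
    f i = f j := by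
  have key : ∀ k : ℤ, f k = f 0 := by
    intro k
    induction k using Int.induction_on with
    | zero => rfl
    | succ i ih => rw [h, ih]
    | pred i ih =>
      have := h (-i - 1)
      rw [show (-(i : ℤ) - 1 + 1) = -i by ring] at this
      rw [← this, ih]
  rw [key i, key j]

/-- a function which changes only where the monotone function `p` changes -/
theorem eq_of_pos_eq {M : Type*} (p : ℤ → ℝ) (f : ℤ → M) (hp : ∀ i, p i ≤ p (i + 1))
    (hf : ∀ i, p (i + 1) = p i → f (i + 1) = f i) {i j : ℤ} (h : p i = p j) : f i = f j := by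
  have mono : Monotone p := monotone_int_of_le_succ hp
  have key : ∀ (n : ℕ) (i : ℤ), p i = p (i + n) → f i = f (i + n) := by
    intro n
    induction n with
    | zero => intro i _; simp
    | succ n ih =>
      intro i hi
      have h1 : p i ≤ p (i + n) := mono (by omega)
      have h2 : p (i + n) ≤ p (i + (n + 1 : ℕ)) := mono (by push_cast; omega)
      have h3 : p i = p (i + n) := le_antisymm h1 (by rw [hi]; exact h2)
      have h4 := ih i h3
      have h5 : i + ((n + 1 : ℕ) : ℤ) = i + n + 1 := by push_cast; ring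
      rw [h5] at hi ⊢
      rw [h4, hf (i + n) (by rw [← hi, h3])]
  rcases le_total i j with hij | hij
  · obtain ⟨n, rfl⟩ := Int.le.dest hij
    exact key n i h
  · obtain ⟨n, rfl⟩ := Int.le.dest hij
    exact (key n j h.symm).symm

variable {G : Subgroup SLZ} {ι : Type} {T : Fam ι} {h : SLZ}

theorem sameArc_swap {a b c d : Cusp} (H : SameArc G a b c d) : SameArc G a b d c := by
  obtain ⟨g, hg, h1 | h1⟩ := H
  · exact ⟨g, hg, Or.inr h1⟩
  · exact ⟨g, hg, Or.inl h1⟩

theorem E_swap {a b : Cusp} (H : T.E G a b) : T.E G b a := by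
  obtain ⟨i, hi⟩ := H
  exact ⟨i, sameArc_swap hi⟩

/-- functions with `a (v i) + b (u i) = 0` along the strip: `b (u i)` is constant -/
theorem strip_const {M : Type*} [AddCommGroup M] (s : Strip G T h) (a b : Cusp → M)
    (H : ∀ i, a (s.v i) + b (s.u i) = 0) (i j : ℤ) : b (s.u i) = b (s.u j) := by
  refine const_of_step (fun i => b (s.u i)) (fun i => ?_) i j
  rcases s.step i with ⟨h1, -, -⟩ | ⟨h1, -, -⟩
  · show b (s.u (i + 1)) = b (s.u i)
    rw [h1]
  · show b (s.u (i + 1)) = b (s.u i)
    have e1 := H i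
    have e2 := H (i + 1)
    rw [h1] at e2
    rw [eq_neg_of_add_eq_zero_right e1, eq_neg_of_add_eq_zero_right e2]

/-- the increment of `b` over one period, for functions with `a (v i) + b (u i) = 0` -/
theorem strip_inc {M : Type*} [AddCommGroup M] (s : Strip G T h) (a b : Cusp → M)
    (H : ∀ i, a (s.v i) + b (s.u i) = 0) : b (h • s.u 0) - b (s.u 0) = 0 := by
  rw [← (s.per 0).1, strip_const s a b H (0 + s.r) 0, sub_self]

theorem shearb (hstrip : STRIP_S) (hdel : DEL_S) : SHEARB_S := by
  intro G ι hι T h hT hG ht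
  classical
  obtain ⟨s⟩ := hstrip G ι (Finite.of_fintype ι) T h hT hG ht
  obtain ⟨d1, d2, d3, -⟩ := hdel G ι hι T hT
  refine ⟨?_, ?_, ?_⟩
  · -- existence
    set D : ℤ → ι → ℤ := fun i => T.del G (s.u i) (s.v i) with hD
    obtain ⟨B, hB⟩ := exists_prim (fun i => if s.u (i + 1) = s.u i then (0 : ι → ℤ)
      else D (i + 1) - D i)
    have nstep : ∀ i, ¬ (s.u (i + 1) = s.u i ∧ s.v (i + 1) = s.v i) := by
      rintro i ⟨h1, h2⟩
      rcases s.step i with ⟨-, h3, -⟩ | ⟨-, h3, -⟩
      · rw [h2] at h3; exact lt_irrefl _ h3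
      · rw [h1] at h3; exact lt_irrefl _ h3
    have mu : ∀ i, pos h (s.u i) ≤ pos h (s.u (i + 1)) := by
      intro i
      rcases s.step i with ⟨h1, -, -⟩ | ⟨-, h3, -⟩
      · rw [h1]
      · exact h3.le
    have mv : ∀ i, pos h (s.v i) ≤ pos h (s.v (i + 1)) := by
      intro i
      rcases s.step i with ⟨-, h3, -⟩ | ⟨h1, -, -⟩
      · exact h3.le
      · rw [h1]
    have wB : ∀ i j, s.u i = s.u j → B i = B j := by
      intro i j hij
      refine eq_of_pos_eq (fun i => pos h (s.u i)) B mu (fun k hk => ?_) (congrArg (pos h) hij)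
      rw [hB]
      rcases s.step k with ⟨h1, -, -⟩ | ⟨-, h3, -⟩
      · rw [if_pos h1, add_zero]
      · exact absurd hk.symm h3.ne
    have wA : ∀ i j, s.v i = s.v j → D i - B i = D j - B j := by
      intro i j hij
      refine eq_of_pos_eq (fun i => pos h (s.v i)) (fun i => D i - B i) mv (fun k hk => ?_)
        (congrArg (pos h) hij)
      show D (k + 1) - B (k + 1) = D k - B k
      rw [hB]
      rcases s.step k with ⟨-, h3, -⟩ | ⟨h1, -, -⟩
      · exact absurd hk.symm h3.ne
      · rw [if_neg (fun h2 => nstep k ⟨h2, h1⟩)]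
        abel
    -- periodicity
    have perD : ∀ i, D (i + s.r) = D i := by
      intro i
      show T.del G (s.u (i + s.r)) (s.v (i + s.r)) = T.del G (s.u i) (s.v i)
      rw [(s.per i).1, (s.per i).2, d2 h hG]
    have perB : ∀ i, B (i + s.r) - B i = B (0 + s.r) - B 0 := by
      intro i
      refine const_of_step (fun i => B (i + s.r) - B i) (fun k => ?_) i 0
      show B (k + 1 + s.r) - B (k + 1) = B (k + s.r) - B k
      have e0 : k + 1 + (s.r : ℤ) = k + s.r + 1 := by ring
      have e1 : (s.u (k + s.r + 1) = s.u (k + s.r)) ↔ (s.u (k + 1) = s.u k) := by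
        rw [← e0, (s.per (k + 1)).1, (s.per k).1]
        exact smul_left_cancel_iff h
      rw [e0, hB (k + s.r), hB k]
      have e2 := perD (k + 1)
      rw [e0] at e2
      simp only [e1, e2, perD k]
      abel
    set β : Cusp → ι → ℤ := fun b => if H : ∃ i, s.u i = b then B H.choose else 0 with hβ
    set α : Cusp → ι → ℤ := fun a => if H : ∃ i, s.v i = a then D H.choose - B H.choose else 0
      with hα
    have vβ : ∀ i, β (s.u i) = B i := by
      intro i
      have H : ∃ j, s.u j = s.u i := ⟨i, rfl⟩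
      simp only [hβ]
      rw [dif_pos H]
      exact wB _ _ H.choose_spec
    have vα : ∀ i, α (s.v i) = D i - B i := by
      intro i
      have H : ∃ j, s.v j = s.v i := ⟨i, rfl⟩
      simp only [hα]
      rw [dif_pos H]
      exact wA _ _ H.choose_spec
    refine ⟨B (0 + s.r) - B 0, α, β, ?_, ?_⟩
    · intro a b hab ha hb
      obtain ⟨i, rfl, rfl⟩ := s.all b a (E_swap hab) hb ha
      rw [vα, vβ, d1]
      show D i - B i + B i = D i
      abel
    · intro a b hab ha hb
      obtain ⟨i, rfl, rfl⟩ := s.all b a (E_swap hab) hb ha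
      rw [← (s.per i).1, ← (s.per i).2, vα, vα, vβ, vβ, perD i]
      refine ⟨perB i, ?_⟩
      rw [← perB i]
      abel
  · -- uniqueness
    rintro m m' ⟨α, β, h1, h2⟩ ⟨α', β', h1', h2'⟩
    have key := strip_inc s (fun a => α a - α' a) (fun b => β b - β' b) (by
      intro i
      have e1 := h1 (s.v i) (s.u i) (E_swap (s.edge i)) (s.right i) (s.left i)
      have e2 := h1' (s.v i) (s.u i) (E_swap (s.edge i)) (s.right i) (s.left i)
      show α (s.v i) - α' (s.v i) + (β (s.u i) - β' (s.u i)) = 0
      rw [show α (s.v i) - α' (s.v i) + (β (s.u i) - β' (s.u i)) =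
        (α (s.v i) + β (s.u i)) - (α' (s.v i) + β' (s.u i)) by abel, e1, e2, sub_self])
    have e3 := (h2 (s.v 0) (s.u 0) (E_swap (s.edge 0)) (s.right 0) (s.left 0)).1
    have e4 := (h2' (s.v 0) (s.u 0) (E_swap (s.edge 0)) (s.right 0) (s.left 0)).1
    have e5 : β (h • s.u 0) - β' (h • s.u 0) - (β (s.u 0) - β' (s.u 0)) = 0 := key
    have e6 : m - m' = 0 := by
      rw [← e3, ← e4, ← e5]
      abel
    exact sub_eq_zero.1 e6
  · -- support
    rintro m ⟨α, β, h1, h2⟩ i hi
    have key : ∃ k, T.del G (s.u k) (s.v k) i ≠ 0 := by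
      by_contra hcon
      push Not at hcon
      apply hi
      have e1 := strip_inc s (fun a => α a i) (fun b => β b i) (by
        intro k
        have e1 := h1 (s.v k) (s.u k) (E_swap (s.edge k)) (s.right k) (s.left k)
        have e2 := congrFun e1 i
        rw [d1, hcon k] at e2
        exact e2)
      have e3 := (h2 (s.v 0) (s.u 0) (E_swap (s.edge 0)) (s.right 0) (s.left 0)).1
      rw [← e3]
      exact e1
    obtain ⟨k, hk⟩ := key
    obtain ⟨i', hi'⟩ := s.edge k
    have e1 := d3 i' (s.u k) (s.v k) hi'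
    have e2 : i = i' := by
      by_contra hne
      apply hk
      rw [e1, Pi.single_eq_of_ne hne]
    subst e2
    exact ⟨s.u k, s.v k, hi', mul_neg_of_neg_of_pos (s.left k) (s.right k)⟩

end Pool.Agent.Lib.MP_eee7a8_ag.TB.PB.H37
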